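import Mathlib
import Pool.Agent.NPC.Defs
import Pool.Agent.MP_709f11_lc.Statement
import Pool.Agent.Cqp.Outer
import Pool.Agent.Cqp.Final

set_option autoImplicit false

/-!
# Recognising graphs with an outer 3-quasi-plane drawing is NP-complete

The edges are arbitrary Jordan arcs, all vertices lie on a line and all edges on one side of it.
-/

open Pool.NPC Pool.Agent.Cqp

/-- The set of (the adjacency matrices of) the graphs that have a drawing in a closed half-plane,
all vertices on the boundary line, edges arbitrary Jordan arcs, without three pairwise crossing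
edges is in NP and NP-hard. -/
theorem Pool.Agent.Results.MP_e048dd_lc.OuterThreeQuasi.result :
    InNP {s : List Bool | ∃ (n : ℕ) (G : SimpleGraph (Fin n)),
      s = Pool.Agent.MP_709f11_lc.encodeGraph G ∧ HalfPlaneQuasi 3 G} ∧
    NPHard {s : List Bool | ∃ (n : ℕ) (G : SimpleGraph (Fin n)),
      s = Pool.Agent.MP_709f11_lc.encodeGraph G ∧ HalfPlaneQuasi 3 G} :=
  ⟨inNP_half, npHard_half⟩
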